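import Pool.Agent.Lib.MP_f11a48_ag.SH.EDefs

/-!
# Project S0, part (e): common eigenvectors of commuting operators of finite order
-/

set_option autoImplicit false

open Pool.Agent.Lib.MPf11a48.CM

namespace Pool.Agent.Lib.MPf11a48.SH

namespace EigAbsM

theorem root_mem {n : ℕ} (hn : 1 ≤ n) {z : ℂ} (hz : z ^ n = 1) : z ∈ Qbar := by
  rw [mem_algebraicClosure_iff]
  refine IsAlgebraic.of_pow (n := n) (by omega) ?_
  rw [hz]
  exact isAlgebraic_one

variable {W : Type*} [AddCommGroup W] [Module ℂ W]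

/-- the projection (up to a factor) to the eigenspace of `z⁻¹` -/
noncomputable def pj (V : W →ₗ[ℂ] W) (n : ℕ) (z : ℂ) : W →ₗ[ℂ] W :=
  ∑ x ∈ Finset.range n, z ^ x • V ^ x

theorem pj_apply (V : W →ₗ[ℂ] W) (n : ℕ) (z : ℂ) (F : W) :
    pj V n z F = ∑ x ∈ Finset.range n, z ^ x • (V ^ x) F := by
  unfold pj
  rw [LinearMap.sum_apply]
  rfl

theorem pj_eig (V : W →ₗ[ℂ] W) {n : ℕ} (z : ℂ) (hz : z ^ n = 1) (F : W)
    (hF : (V ^ n) F = F) : z • V (pj V n z F) = pj V n z F := by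
  rw [pj_apply, map_sum, Finset.smul_sum]
  have h1 : ∀ x, z • V (z ^ x • (V ^ x) F) = z ^ (x + 1) • (V ^ (x + 1)) F := by
    intro x
    rw [map_smul, smul_smul, pow_succ' z, pow_succ' V]
    rfl
  simp only [h1]
  have h2 := Finset.sum_range_succ' (fun x => z ^ x • (V ^ x) F) n
  have h3 := Finset.sum_range_succ (fun x => z ^ x • (V ^ x) F) n
  rw [h2] at h3
  simp only [pow_zero, one_smul, hz, hF, Module.End.one_apply] at h3
  exact add_right_cancel h3

theorem sum_pj (V : W →ₗ[ℂ] W) {n : ℕ} (hn : 1 ≤ n) {η : ℂ} (hη : IsPrimitiveRoot η n) (F : W) :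
    ∑ i ∈ Finset.range n, pj V n (η ^ i) F = (n : ℂ) • F := by
  simp only [pj_apply]
  rw [Finset.sum_comm]
  have h1 : ∀ x ∈ Finset.range n, ∑ i ∈ Finset.range n, (η ^ i) ^ x • (V ^ x) F =
      if x = 0 then (n : ℂ) • F else 0 := by
    intro x hx
    rw [← Finset.sum_smul]
    split_ifs with h
    · subst h
      simp
    · have h2 : η ^ x ≠ 1 := by
        intro h3
        have h4 := (hη.pow_eq_one_iff_dvd x).1 h3
        exact h (Nat.eq_zero_of_dvd_of_lt h4 (Finset.mem_range.1 hx))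
      have h3 : ∑ i ∈ Finset.range n, (η ^ i) ^ x = 0 := by
        have h4 : ∀ i, (η ^ i) ^ x = (η ^ x) ^ i := fun i => by rw [← pow_mul, ← pow_mul, mul_comm]
        simp only [h4]
        rw [geom_sum_eq h2, ← pow_mul, mul_comm x n, pow_mul, hη.pow_eq_one, one_pow, sub_self,
          zero_div]
      rw [h3, zero_smul]
  rw [Finset.sum_congr rfl h1, Finset.sum_ite_eq' (Finset.range n) 0]
  rw [if_pos (Finset.mem_range.2 (by omega))]

theorem pow_comm_apply {V V' : W →ₗ[ℂ] W} (h : ∀ F, V (V' F) = V' (V F)) (x : ℕ) (F : W) :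
    (V ^ x) (V' F) = V' ((V ^ x) F) := by
  induction x with
  | zero => rfl
  | succ x ih =>
    rw [pow_succ' V]
    show V ((V ^ x) (V' F)) = V' (V ((V ^ x) F))
    rw [ih, h]

theorem pj_comm {V V' : W →ₗ[ℂ] W} (h : ∀ F, V (V' F) = V' (V F)) (n : ℕ) (z : ℂ) (F : W) :
    V' (pj V n z F) = pj V n z (V' F) := by
  rw [pj_apply, pj_apply, map_sum]
  refine Finset.sum_congr rfl fun x _ => ?_
  rw [map_smul, pow_comm_apply h]

theorem pj_comm_pow {V V' : W →ₗ[ℂ] W} (h : ∀ F, V (V' F) = V' (V F)) (n : ℕ) (z : ℂ) (m : ℕ)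
    (F : W) : (V' ^ m) (pj V n z F) = pj V n z ((V' ^ m) F) := by
  induction m with
  | zero => rfl
  | succ m ih =>
    rw [pow_succ' V']
    show V' ((V' ^ m) (pj V n z F)) = pj V n z (V' ((V' ^ m) F))
    rw [ih, pj_comm h]

/-- common eigenvectors -/
theorem eig_abs {κ : Type} (V : κ → W →ₗ[ℂ] W)
    (hc : ∀ k k' F, V k (V k' F) = V k' (V k F)) (QQ : W → Prop) (h0 : QQ 0)
    (hadd : ∀ F G, QQ F → QQ G → QQ (F + G)) (hsm : ∀ c ∈ Qbar, ∀ F, QQ F → QQ (c • F))
    (hV : ∀ k F, QQ F → QQ (V k F)) {n : ℕ} (hn : 1 ≤ n) (T : W) (hT : QQ T) (hT0 : T ≠ 0)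
    (hTn : ∀ k, (V k ^ n) T = T) (S : Finset κ) :
    ∃ F, F ≠ 0 ∧ QQ F ∧ (∀ k, (V k ^ n) F = F) ∧ ∀ k ∈ S, ∃ ζ : ℂ, ζ ^ n = 1 ∧ V k F = ζ • F := by
  classical
  induction S using Finset.induction_on with
  | empty => exact ⟨T, hT0, hT, hTn, by simp⟩
  | insert a S ha ih =>
    obtain ⟨F, hF0, hF, hFn, hFS⟩ := ih
    have hη := Complex.isPrimitiveRoot_exp n (by omega)
    set η := Complex.exp (2 * Real.pi * Complex.I / n) with hηd
    have hex : ∃ i ∈ Finset.range n, pj (V a) n (η ^ i) F ≠ 0 := by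
      by_contra hcon
      push Not at hcon
      have h1 := sum_pj (V a) hn hη F
      rw [Finset.sum_eq_zero hcon] at h1
      rcases smul_eq_zero.1 h1.symm with h | h
      · have : n = 0 := by exact_mod_cast h
        omega
      · exact hF0 h
    obtain ⟨i, -, hi⟩ := hex
    have hz : (η ^ i) ^ n = 1 := by rw [← pow_mul, mul_comm, pow_mul, hη.pow_eq_one, one_pow]
    have hzQ : η ^ i ∈ Qbar := root_mem hn hz
    have hz0 : η ^ i ≠ 0 := fun h => by
      rw [h, zero_pow (by omega)] at hz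
      exact zero_ne_one hz
    refine ⟨pj (V a) n (η ^ i) F, hi, ?_, ?_, ?_⟩
    · rw [pj_apply]
      have hpow : ∀ x, QQ ((V a ^ x) F) := by
        intro x
        induction x with
        | zero => exact hF
        | succ x ihx =>
          rw [pow_succ' (V a)]
          exact hV a _ ihx
      refine Finset.sum_induction _ QQ hadd h0 fun x _ => ?_
      exact hsm _ (Qbar.pow_mem hzQ x) _ (hpow x)
    · intro k
      rw [pj_comm_pow (hc a k), hFn]
    · intro k hk
      rw [Finset.mem_insert] at hk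
      rcases hk with rfl | hk
      · refine ⟨(η ^ i)⁻¹, by rw [inv_pow, hz, inv_one], ?_⟩
        have h1 := pj_eig (V k) (η ^ i) hz F (hFn k)
        rw [← h1, smul_smul, inv_mul_cancel₀ hz0, one_smul, h1]
      · obtain ⟨ζ, hζ, hζF⟩ := hFS k hk
        refine ⟨ζ, hζ, ?_⟩
        rw [pj_comm (hc a k), hζF, map_smul]

end EigAbsM

end Pool.Agent.Lib.MPf11a48.SH
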