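import Pool.Agent.Lib.MP_f11a48_ag.SH.H4.Base

/-!
# Project S0, part (e): the base data for coordinates with a general index type
-/

set_option autoImplicit false

open Matrix MvPolynomial Pool.Agent.Lib.MPf11a48.CM Pool.Agent.Lib.MPf11a48.GL2T
open Filter Topology
open Pool.Agent.Lib.MPf11a48.U (AbData Ix)
open Pool.Agent.Lib.MPf11a48.AS

namespace Pool.Agent.Lib.MPf11a48.SH

namespace BaseIM

/-- real independence of the lattice vectors -/
theorem om_indep {g N : ℕ} {ι κ Λ₀ : Type} [Fintype ι] [Fintype κ] [Fintype Λ₀] [DecidableEq Λ₀]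
    {K : IntermediateField ℚ ℂ} (A : AbData g N) (hA : A.IsAbVar K) (om : Λ₀ → (ι → ℂ))
    (b : κ → (ι → ℂ) →ₗ[ℂ] (Fin g → ℂ))
    (X : Λ₀ → κ → Ix g → ℚ) (hX : ∀ l k, b k (om l) = ∑ m, ((X l k m : ℚ) : ℂ) • A.lat m)
    (w : κ → ℚ) (EE : Matrix Λ₀ Λ₀ ℚ)
    (hEE : ∀ l m, EE l m = ∑ k, w k * ∑ j, ∑ j', X l k j * (A.E j j' : ℚ) * X m k j')
    (hdet : EE.det ≠ 0) : LinearIndependent ℝ om := by
  rw [Fintype.linearIndependent_iff]
  intro r hr
  have h1 : ∀ k j, ∑ l, r l * (X l k j : ℝ) = 0 := by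
    intro k
    have h3 : ∑ j, (∑ l, r l * (X l k j : ℝ)) • A.lat j = 0 := by
      have h2 : b k (∑ l, r l • om l) = 0 := by rw [hr, map_zero]
      rw [map_sum] at h2
      rw [← h2]
      simp only [Finset.sum_smul]
      rw [Finset.sum_comm]
      refine Finset.sum_congr rfl fun l _ => ?_
      rw [← Complex.coe_smul, map_smul, hX, Finset.smul_sum]
      refine Finset.sum_congr rfl fun j _ => ?_
      rw [smul_smul, ← Complex.coe_smul]
      push_cast
      rfl
    exact Fintype.linearIndependent_iff.1 hA.lat_indep _ h3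
  have h2 : r ᵥ* (EE.map fun x => (x : ℝ)) = 0 := by
    funext m
    simp only [Matrix.vecMul, dotProduct, Matrix.map_apply, Pi.zero_apply]
    have h3 : ∀ l, r l * ((EE l m : ℚ) : ℝ) =
        ∑ k, ∑ j, ∑ j', (r l * (X l k j : ℝ)) * ((w k : ℝ) * (A.E j j' : ℝ) * (X m k j' : ℝ)) := by
      intro l
      rw [hEE]
      push_cast
      simp only [Finset.mul_sum]
      refine Finset.sum_congr rfl fun k _ => Finset.sum_congr rfl fun j _ =>
        Finset.sum_congr rfl fun j' _ => ?_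
      ring
    simp only [h3]
    rw [Finset.sum_comm]
    refine Finset.sum_eq_zero fun k _ => ?_
    rw [Finset.sum_comm]
    refine Finset.sum_eq_zero fun j _ => ?_
    rw [Finset.sum_comm]
    refine Finset.sum_eq_zero fun j' _ => ?_
    rw [← Finset.sum_mul, h1, zero_mul]
  have h3 : r = 0 := by
    refine Matrix.eq_zero_of_vecMul_eq_zero ?_ h2
    intro h0
    apply hdet
    have h4 : (EE.map fun x => (x : ℝ)).det = ((EE.det : ℚ) : ℝ) := by
      have := (RingHom.map_det (Rat.castHom ℝ) EE)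
      exact this.symm
    rw [h4] at h0
    exact_mod_cast h0
  intro l
  rw [h3]
  rfl

/-- the standard symplectic matrix -/
def sy (ι : Type) [DecidableEq ι] : Matrix (ι ⊕ ι) (ι ⊕ ι) ℚ := Matrix.fromBlocks 0 1 (-1) 0

theorem sy_det (ι : Type) [Fintype ι] [DecidableEq ι] : (sy ι).det ≠ 0 := by
  have h : sy ι * Matrix.fromBlocks 0 (-1) 1 0 = 1 := by
    unfold sy
    rw [Matrix.fromBlocks_multiply]
    simp
  intro h0
  have h1 := congrArg Matrix.det h
  rw [Matrix.det_mul, h0, zero_mul, Matrix.det_one] at h1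
  exact zero_ne_one h1

/-- relabelling of the coordinates -/
noncomputable def Re (ι : Type) [Fintype ι] : (ι → ℂ) ≃ₗ[ℂ] (Fin (Fintype.card ι) → ℂ) :=
  LinearEquiv.funCongrLeft ℂ ℂ (Fintype.equivFin ι).symm

theorem Re_apply {ι : Type} [Fintype ι] (z : ι → ℂ) (a : Fin (Fintype.card ι)) :
    Re ι z a = z ((Fintype.equivFin ι).symm a) := rfl

theorem Re_symm_apply {ι : Type} [Fintype ι] (z : Fin (Fintype.card ι) → ℂ) (i : ι) :
    (Re ι).symm z i = z (Fintype.equivFin ι i) := rfl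

theorem Re_symm_single {ι : Type} [Fintype ι] [DecidableEq ι] (a : Fin (Fintype.card ι)) :
    (Re ι).symm (Pi.single a 1) = Pi.single ((Fintype.equivFin ι).symm a) 1 := by
  funext i
  rw [Re_symm_apply]
  by_cases h : Fintype.equivFin ι i = a
  · subst h
    rw [Pi.single_eq_same, Equiv.symm_apply_apply, Pi.single_eq_same]
  · rw [Pi.single_eq_of_ne h, Pi.single_eq_of_ne]
    intro h2
    apply h
    rw [h2, Equiv.apply_symm_apply]

end BaseIM

open BaseIM in
/-- Base data, for coordinates with a general index type, on the relabelled lattice. -/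
theorem baseI {g N : ℕ} {ι κ : Type} [Fintype ι] [DecidableEq ι] [Fintype κ] [DecidableEq κ]
    {K : IntermediateField ℚ ℂ} (hK : K ≤ Qbar) (A : AbData g N) (hA : A.IsAbVar K)
    (om : ι ⊕ ι → (ι → ℂ)) (B : κ → Matrix (Fin g) ι ℂ) (hB : ∀ k j a, B k j a ∈ Qbar)
    (X : ι ⊕ ι → κ → Ix g → ℚ)
    (hX : ∀ l k, B k *ᵥ om l = ∑ m, ((X l k m : ℚ) : ℂ) • A.lat m)
    (w : κ → ℚ) (hw : ∀ k, 0 < w k)
    (hE : ∀ l m, sy ι l m = ∑ k, w k * ∑ j, ∑ j', X l k j * (A.E j j' : ℚ) * X m k j') :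
    LinearIndependent ℝ om ∧
    ∃ (I Λ : Type) (_ : Fintype I) (_ : Fintype Λ) (D : QD (Fintype.card ι) I Λ), D.Good ∧ D.Alg ∧
      LogD D.toTH ∧ ∃ t : ι ⊕ ι → Λ → ℚ, (∀ m, vq D.toTH (t m) = Re ι (om m)) ∧
        (∀ l, ∃ x : ι ⊕ ι → ℚ, D.lat l = ∑ m, ((x m : ℚ) : ℂ) • Re ι (om m)) ∧
        ∀ m m', pr D.toTH (t m) (t m') = Real.pi * Complex.I * (sy ι m m' : ℂ) := by
  have hX0 : ∀ l k, (Matrix.toLin' (B k)) (om l) = ∑ m, ((X l k m : ℚ) : ℂ) • A.lat m := by
    intro l k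
    rw [Matrix.toLin'_apply]
    exact hX l k
  have hom := om_indep A hA om (fun k => Matrix.toLin' (B k)) X hX0 w (sy ι) hE (sy_det ι)
  refine ⟨hom, ?_⟩
  let b : κ → (Fin (Fintype.card ι) → ℂ) →ₗ[ℂ] (Fin g → ℂ) :=
    fun k => Matrix.toLin' (B k) ∘ₗ (Re ι).symm.toLinearMap
  have hlat : LinearIndependent ℝ fun m => Re ι (om m) := by
    have h1 := hom.map' ((Re ι).toLinearMap.restrictScalars ℝ) (by
      rw [LinearMap.ker_eq_bot]
      exact (Re ι).injective)
    exact h1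
  refine base hK A hA (fun m => Re ι (om m)) hlat (by simp [two_mul]) b ?_ X ?_ w hw (sy ι) hE
    (sy_det ι)
  · intro k a j
    show (Matrix.toLin' (B k)) ((Re ι).symm (Pi.single a 1)) j ∈ Qbar
    rw [Re_symm_single, Matrix.toLin'_apply, Matrix.mulVec_single_one]
    exact hB _ _ _
  · intro l k
    show (Matrix.toLin' (B k)) ((Re ι).symm (Re ι (om l))) = _
    rw [LinearEquiv.symm_apply_apply]
    exact hX0 l k

end Pool.Agent.Lib.MPf11a48.SH
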