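import Pool.Agent.Lib.MP_f11a48_ag.AS.All

/-!
# Project S0, part (e): the embedding given by algebraic linear maps to an abelian variety
-/

set_option autoImplicit false

open Matrix MvPolynomial Pool.Agent.Lib.MPf11a48.CM Pool.Agent.Lib.MPf11a48.GL2T
open Filter Topology
open Pool.Agent.Lib.MPf11a48.U (AbData Ix)
open Pool.Agent.Lib.MPf11a48.AS

namespace Pool.Agent.Lib.MPf11a48.SH

namespace EmbBM

/-- a left inverse of a family of independent rational vectors -/
theorem left_inv {ι : Type} [Fintype ι] {n : ℕ} (v : Fin n → ι → ℚ) (hv : LinearIndependent ℚ v) :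
    ∃ W : Fin n → ι → ℚ, ∀ l' l, ∑ i, W l' i * v l i = if l = l' then 1 else 0 := by
  classical
  obtain ⟨W, hW⟩ := LinearMap.exists_leftInverse_of_injective (Fintype.linearCombination ℚ v)
    (LinearMap.ker_eq_bot.2 hv.fintypeLinearCombination_injective)
  refine ⟨fun l' i => W (Pi.single i 1) l', fun l' l => ?_⟩
  have h2 : W (v l) = Pi.single l 1 := by
    have h3 := LinearMap.congr_fun hW (Pi.single l 1)
    rw [LinearMap.comp_apply, Fintype.linearCombination_apply_single, one_smul,
      LinearMap.id_apply] at h3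
    exact h3
  have h4 : v l = ∑ i, v l i • (Pi.single i 1 : ι → ℚ) := by
    funext k
    simp [Finset.sum_apply, Pi.single_apply]
  have h5 : W (v l) l' = ∑ i, W (Pi.single i 1) l' * v l i := by
    conv_lhs => rw [h4]
    rw [map_sum, Finset.sum_apply]
    refine Finset.sum_congr rfl fun i _ => ?_
    rw [map_smul, Pi.smul_apply, smul_eq_mul, mul_comm]
  rw [← h5, h2, Pi.single_apply]
  simp only [eq_comm]

/-- the coefficients of a rational vector are rational -/
theorem coeff_rat {ι : Type} [Fintype ι] {n : ℕ} (v : Fin n → ι → ℚ)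
    (hv : LinearIndependent ℚ v) (r : Fin n → ℝ) (y : ι → ℚ)
    (h : ∀ i, ∑ l, r l * (v l i : ℝ) = y i) : ∃ q : Fin n → ℚ, (∀ l, r l = q l) ∧
      ∀ i, ∑ l, q l * v l i = y i := by
  classical
  obtain ⟨W, hW⟩ := left_inv v hv
  have h1 : ∀ l', r l' = ((∑ i, W l' i * y i : ℚ) : ℝ) := by
    intro l'
    have h2 : ∑ i, (W l' i : ℝ) * (y i : ℝ) = ∑ l, r l * ∑ i, (W l' i : ℝ) * (v l i : ℝ) := by
      simp only [← h, Finset.mul_sum]
      rw [Finset.sum_comm]
      exact Finset.sum_congr rfl fun l _ => Finset.sum_congr rfl fun i _ => by ring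
    have h3 : ∀ l, ∑ i, (W l' i : ℝ) * (v l i : ℝ) = if l = l' then 1 else 0 := by
      intro l
      have h4 := congrArg (fun x : ℚ => (x : ℝ)) (hW l' l)
      simp only [Rat.cast_sum, Rat.cast_mul] at h4
      rw [h4]
      split_ifs <;> simp
    push_cast
    rw [h2]
    simp [h3]
  refine ⟨fun l' => ∑ i, W l' i * y i, h1, fun i => ?_⟩
  have h5 := h i
  have h6 : (((∑ l, (∑ i, W l i * y i) * v l i : ℚ)) : ℝ) = (y i : ℝ) := by
    rw [← h5]
    push_cast
    refine Finset.sum_congr rfl fun l _ => ?_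
    rw [h1 l]
    push_cast
    rfl
  exact_mod_cast h6

end EmbBM

open EmbBM in
/-- The embedding given by algebraic linear maps `b k : ℂ^n → ℂ^g` which map the rational lattice
vectors to rational lattice vectors. -/
theorem exists_emb {g N n : ℕ} {κ Λ₀ : Type} [Fintype κ] [DecidableEq κ] [Fintype Λ₀]
    {K : IntermediateField ℚ ℂ} (A : AbData g N) (hA : A.IsAbVar K)
    (lat : Λ₀ → (Fin n → ℂ)) (hlat : LinearIndependent ℝ lat) (hcard : Fintype.card Λ₀ = 2 * n)
    (b : κ → (Fin n → ℂ) →ₗ[ℂ] (Fin g → ℂ)) (hb : ∀ k a j, b k (Pi.single a 1) j ∈ Qbar)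
    (X : Λ₀ → κ → Ix g → ℚ) (hX : ∀ l k, b k (lat l) = ∑ m, ((X l k m : ℚ) : ℂ) • A.lat m)
    (hinj : ∀ v, (∀ k, b k v = 0) → v = 0) :
    ∃ E : Emb g n κ (Fin (2 * n)), E.Good A ∧ (∀ s k, E.io s k = b k s) ∧
      (∀ k y, E.R k y = 0) ∧
      (∀ l, ∃ t : Λ₀ → ℚ, E.lat l = ∑ m, ((t m : ℚ) : ℂ) • lat m) ∧
      ∀ m, ∃ t : Fin (2 * n) → ℚ, lat m = ∑ l, ((t l : ℚ) : ℂ) • E.lat l := by
  classical
  let V : Λ₀ → (κ × Ix g → ℚ) := fun l p => X l p.1 p.2
  -- the images of the lattice vectors are independent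
  have hbX : ∀ t : Λ₀ → ℚ, ∀ k, b k (∑ l, ((t l : ℚ) : ℂ) • lat l) =
      ∑ m, ((∑ l, t l * X l k m : ℚ) : ℂ) • A.lat m := by
    intro t k
    rw [map_sum]
    simp only [map_smul, hX, Finset.smul_sum, smul_smul]
    rw [Finset.sum_comm]
    refine Finset.sum_congr rfl fun m _ => ?_
    rw [← Finset.sum_smul]
    congr 1
    push_cast
    rfl
  have hVi : LinearIndependent ℚ V := by
    rw [Fintype.linearIndependent_iff]
    intro t ht
    have h1 : ∑ l, ((t l : ℚ) : ℂ) • lat l = 0 := by
      apply hinj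
      intro k
      rw [hbX]
      refine Finset.sum_eq_zero fun m _ => ?_
      have h2 := congrFun ht (k, m)
      simp only [Finset.sum_apply, Pi.smul_apply, smul_eq_mul, Pi.zero_apply, V] at h2
      rw [h2]
      simp
    intro l
    have h3 : ∑ l, ((t l : ℚ) : ℝ) • lat l = 0 := by
      rw [← h1]
      refine Finset.sum_congr rfl fun l _ => ?_
      funext j
      simp
    have h4 := Fintype.linearIndependent_iff.1 hlat _ h3 l
    exact_mod_cast h4
  let M : Submodule ℚ (κ × Ix g → ℚ) := Submodule.span ℚ (Set.range V)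
  have hfr : Module.finrank ℚ M = 2 * n := by
    rw [finrank_span_eq_card hVi, hcard]
  obtain ⟨X0, hX0M, hX0i, hX0s⟩ := specLAT M
  let X' : Fin (2 * n) → κ × Ix g → ℤ := fun l => X0 (Fin.cast hfr.symm l)
  have hX'M : ∀ l, (fun p => (X' l p : ℚ)) ∈ M := fun l => hX0M _
  have hX'i : LinearIndependent ℚ (fun l p => (X' l p : ℚ)) :=
    hX0i.comp _ (Fin.cast_injective hfr.symm)
  have hX's : ∀ Y : κ × Ix g → ℤ, (fun p => (Y p : ℚ)) ∈ M →
      ∃ x : Fin (2 * n) → ℤ, ∀ p, Y p = ∑ l, x l * X' l p := by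
    intro Y hY
    obtain ⟨x, hx⟩ := hX0s Y hY
    refine ⟨fun l => x (Fin.cast hfr.symm l), fun p => ?_⟩
    have h1 := hx p
    rw [← Equiv.sum_comp (finCongr hfr.symm)] at h1
    exact h1
  -- elements of `M` are combinations
  have hMt : ∀ y ∈ M, ∃ t : Λ₀ → ℚ, ∀ p, y p = ∑ l, t l * V l p := by
    intro y hy
    obtain ⟨t, ht⟩ := (Submodule.mem_span_range_iff_exists_fun ℚ).1 hy
    refine ⟨t, fun p => ?_⟩
    rw [← ht]
    simp [Finset.sum_apply]
  choose t ht using fun l => hMt _ (hX'M l)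
  let lat' : Fin (2 * n) → (Fin n → ℂ) := fun l => ∑ m, ((t l m : ℚ) : ℂ) • lat m
  have hb' : ∀ l k, b k (lat' l) = ∑ m, (X' l (k, m) : ℂ) • A.lat m := by
    intro l k
    show b k (∑ m, ((t l m : ℚ) : ℂ) • lat m) = _
    rw [hbX]
    refine Finset.sum_congr rfl fun m _ => ?_
    have h1 := ht l (k, m)
    congr 1
    have h2 : ((X' l (k, m) : ℤ) : ℂ) = (((X' l (k, m) : ℤ) : ℚ) : ℂ) := by push_cast; rfl
    rw [h2]
    exact congrArg (fun x : ℚ => (x : ℂ)) h1.symm
  let u : Fin n → κ → Fin g → ℂ := fun a k j => b k (Pi.single a 1) j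
  have hio : ∀ s k, (Fintype.linearCombination ℂ u s) k = b k s := by
    intro s k
    have h1 : s = ∑ a, s a • (Pi.single a (1 : ℂ) : Fin n → ℂ) := pi_eq_sum_univ' s
    conv_rhs => rw [h1]
    rw [map_sum, Fintype.linearCombination_apply, Finset.sum_apply]
    refine Finset.sum_congr rfl fun a _ => ?_
    rw [map_smul, Pi.smul_apply]
  have hui : LinearIndependent ℂ u := by
    rw [Fintype.linearIndependent_iff]
    intro c hc
    have h1 : c = 0 := by
      apply hinj
      intro k
      rw [← hio]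
      have h2 : Fintype.linearCombination ℂ u c = 0 := by
        rw [Fintype.linearCombination_apply]
        exact hc
      rw [h2]
      rfl
    intro a
    rw [h1]
    rfl
  -- real combinations
  have hreal : ∀ (r : Fin (2 * n) → ℝ) k, b k (∑ l, r l • lat' l) =
      ∑ m, (∑ l, r l * (X' l (k, m) : ℝ)) • A.lat m := by
    intro r k
    have h3 : ∑ l, r l • lat' l = ∑ l, (r l : ℂ) • lat' l := by
      refine Finset.sum_congr rfl fun l _ => ?_
      rw [Complex.coe_smul]
    rw [h3, map_sum]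
    simp only [map_smul, hb', Finset.smul_sum, smul_smul]
    rw [Finset.sum_comm]
    refine Finset.sum_congr rfl fun m _ => ?_
    rw [← Finset.sum_smul, ← Complex.coe_smul]
    congr 1
    push_cast
    rfl
  have hlati : LinearIndependent ℝ lat' := by
    rw [Fintype.linearIndependent_iff]
    intro r hr
    have h1 : ∀ p : κ × Ix g, ∑ l, r l * ((X' l p : ℚ) : ℝ) = 0 := by
      rintro ⟨k, m⟩
      have h2 := hreal r k
      rw [hr, map_zero] at h2
      have h3 := Fintype.linearIndependent_iff.1 hA.lat_indep _ h2.symm m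
      push_cast
      exact h3
    have h2 := EMBM.real_indep _ hX'i r h1
    intro l
    exact congrFun h2 l
  refine ⟨⟨u, fun l k m => X' l (k, m), lat', fun _ _ => 0⟩, ⟨hui, fun a k j => hb k a j,
    fun _ _ => Qbar.zero_mem, fun l k => (hio _ _).trans (hb' l k), hlati, by simp, ?_⟩, hio,
    fun _ _ => rfl, fun l => ⟨t l, rfl⟩, ?_⟩
  · -- saturation
    intro Y s hY
    have hcd : Fintype.card (Fin (2 * n)) = Module.finrank ℝ (Fin n → ℂ) := by
      rw [Module.finrank_pi_fintype]
      simp [Complex.finrank_real_complex, mul_comm]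
    let B : Module.Basis (Fin (2 * n)) ℝ (Fin n → ℂ) :=
      basisOfLinearIndependentOfCardEqFinrank' _ hlati hcd
    have hB : ∀ l, B l = lat' l := fun l => by
      show basisOfLinearIndependentOfCardEqFinrank' _ hlati hcd l = _
      rw [coe_basisOfLinearIndependentOfCardEqFinrank']
    have hs : s = ∑ l, B.repr s l • lat' l := by
      conv_lhs => rw [← B.sum_repr s]
      exact Finset.sum_congr rfl fun l _ => by rw [hB]
    have h1 : ∀ p : κ × Ix g, ∑ l, B.repr s l * ((X' l p : ℚ) : ℝ) = ((Y p.1 p.2 : ℚ) : ℝ) := by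
      rintro ⟨k, m⟩
      have h2 : b k s = ∑ m, (Y k m : ℂ) • A.lat m := (hio s k).symm.trans (hY k)
      have h3 := hreal (fun l => B.repr s l) k
      rw [← hs, h2] at h3
      have h4 : ∑ m, (∑ l, B.repr s l * (X' l (k, m) : ℝ) - (Y k m : ℝ)) • A.lat m = 0 := by
        simp only [sub_smul]
        rw [Finset.sum_sub_distrib, ← h3, sub_eq_zero]
        refine Finset.sum_congr rfl fun m _ => ?_
        rw [← Complex.coe_smul]
        push_cast
        rfl
      have h5 := Fintype.linearIndependent_iff.1 hA.lat_indep _ h4 m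
      push_cast
      linarith
    obtain ⟨q, hq, hqY⟩ := coeff_rat _ hX'i (fun l => B.repr s l) _ h1
    have h2 : (fun p : κ × Ix g => ((Y p.1 p.2 : ℤ) : ℚ)) ∈ M := by
      have h3 : (fun p : κ × Ix g => ((Y p.1 p.2 : ℤ) : ℚ)) =
          ∑ l, q l • fun p => (X' l p : ℚ) := by
        funext p
        rw [← hqY p]
        simp [Finset.sum_apply]
      rw [h3]
      exact Submodule.sum_mem _ fun l _ => Submodule.smul_mem _ _ (hX'M l)
    obtain ⟨x, hx⟩ := hX's (fun p => Y p.1 p.2) h2
    refine ⟨x, ?_⟩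
    have h3 : ∀ l, q l = x l := by
      have h4 := Fintype.linearIndependent_iff.1 hX'i (fun l => q l - x l) (by
        funext p
        have h5 := hqY p
        have h6 := hx p
        simp only [Finset.sum_apply, Pi.smul_apply, smul_eq_mul, Pi.zero_apply, sub_mul]
        rw [Finset.sum_sub_distrib, h5]
        have h7 : ((Y p.1 p.2 : ℤ) : ℚ) = ∑ l, (x l : ℚ) * (X' l p : ℚ) := by
          exact_mod_cast h6
        rw [h7, sub_self])
      intro l
      exact sub_eq_zero.1 (h4 l)
    show s = ∑ l, (x l : ℂ) • lat' l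
    conv_lhs => rw [hs]
    refine Finset.sum_congr rfl fun l _ => ?_
    rw [hq l, h3 l, ← Complex.coe_smul]
    push_cast
    rfl
  · -- the old lattice vectors are rational combinations of the new ones
    intro m
    have h1 : (V m) ∈ Submodule.span ℚ (Set.range fun l p => (X' l p : ℚ)) := by
      have h2 : Submodule.span ℚ (Set.range fun l p => (X' l p : ℚ)) = M := by
        apply Submodule.eq_of_le_of_finrank_eq
        · rw [Submodule.span_le]
          rintro _ ⟨l, rfl⟩
          exact hX'M l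
        · rw [finrank_span_eq_card hX'i, hfr]
          simp
      rw [h2]
      exact Submodule.subset_span ⟨m, rfl⟩
    obtain ⟨c, hc⟩ := (Submodule.mem_span_range_iff_exists_fun ℚ).1 h1
    refine ⟨c, ?_⟩
    have h3 : lat m - ∑ l, ((c l : ℚ) : ℂ) • lat' l = 0 := by
      apply hinj
      intro k
      rw [map_sub, map_sum, hX, sub_eq_zero]
      simp only [map_smul, hb', Finset.smul_sum, smul_smul]
      rw [Finset.sum_comm]
      refine Finset.sum_congr rfl fun j _ => ?_
      rw [← Finset.sum_smul]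
      congr 1
      have h4 := congrFun hc (k, j)
      simp only [Finset.sum_apply, Pi.smul_apply, smul_eq_mul, V] at h4
      rw [← h4]
      push_cast
      rfl
    exact sub_eq_zero.1 h3

end Pool.Agent.Lib.MPf11a48.SH
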