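import Pool.Agent.Lib.MP_f11a48_ag.SH.EDefs

/-!
# Project S0, part (e): the quasi-periodic data of `Emb`, with second logarithmic derivatives
-/

set_option autoImplicit false

open Matrix MvPolynomial Pool.Agent.Lib.MPf11a48.CM Pool.Agent.Lib.MPf11a48.GL2T
open Filter Topology
open Pool.Agent.Lib.MPf11a48.U (AbData Ix)
open Pool.Agent.Lib.MPf11a48.AS

namespace Pool.Agent.Lib.MPf11a48.SH

namespace LogDM

open CDVM

/-- logarithmic derivative in the direction `v` -/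
noncomputable def LD {β : ℕ} (F : (Fin β → ℂ) → ℂ) (v s : Fin β → ℂ) : ℂ := fderiv ℂ F s v / F s

theorem LD_mul {β : ℕ} {F G : (Fin β → ℂ) → ℂ} {v s : Fin β → ℂ} (hF : DifferentiableAt ℂ F s)
    (hG : DifferentiableAt ℂ G s) (hF0 : F s ≠ 0) (hG0 : G s ≠ 0) :
    LD (fun s => F s * G s) v s = LD F v s + LD G v s := by
  unfold LD
  have h2 : fderiv ℂ (fun s => F s * G s) s = F s • fderiv ℂ G s + G s • fderiv ℂ F s :=
    (hF.hasFDerivAt.mul hG.hasFDerivAt).fderiv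
  rw [h2]
  simp only [_root_.add_apply, _root_.smul_apply, smul_eq_mul]
  field_simp
  ring

theorem prod_diff {β : ℕ} {σ : Type} (S : Finset σ) {F : σ → (Fin β → ℂ) → ℂ} {s : Fin β → ℂ}
    (hF : ∀ i, DifferentiableAt ℂ (F i) s) :
    DifferentiableAt ℂ (fun s => ∏ i ∈ S, F i s) s := by
  classical
  induction S using Finset.induction_on with
  | empty => simp
  | insert a S ha ih =>
    simp only [Finset.prod_insert ha]
    exact (hF a).mul ih

theorem LD_prod {β : ℕ} {σ : Type} (S : Finset σ) {F : σ → (Fin β → ℂ) → ℂ} {v s : Fin β → ℂ}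
    (hF : ∀ i, DifferentiableAt ℂ (F i) s) (hF0 : ∀ i ∈ S, F i s ≠ 0) :
    LD (fun s => ∏ i ∈ S, F i s) v s = ∑ i ∈ S, LD (F i) v s := by
  classical
  induction S using Finset.induction_on with
  | empty => simp [LD]
  | insert a S ha ih =>
    simp only [Finset.prod_insert ha, Finset.sum_insert ha]
    rw [LD_mul (hF a) ?_ (hF0 a (Finset.mem_insert_self a S)) ?_,
      ih fun i hi => hF0 i (Finset.mem_insert_of_mem hi)]
    · exact prod_diff S hF
    · exact Finset.prod_ne_zero_iff.2 fun i hi => hF0 i (Finset.mem_insert_of_mem hi)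

variable {g N β : ℕ} {κ Λ : Type} [Fintype κ] [DecidableEq κ] {K : IntermediateField ℚ ℂ}
  {A : AbData g N} {E : Emb g β κ Λ}

/-- `Z_l = ∂_l log th_0` -/
noncomputable def Zl (A : AbData g N) (l : Fin g) (z : Fin g → ℂ) : ℂ :=
  AbData.pd l (A.th 0) z / A.th 0 z

theorem pd_diff (hA : A.IsAbVar K) (l : Fin g) : Differentiable ℂ (AbData.pd l (A.th 0)) := by
  intro z
  have h1 : AnalyticAt ℂ (A.th 0) z :=
    Pool.Agent.Lib.MPf11a48.U.Osgood.analyticAt_of_differentiable (hA.th_diff 0) z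
  have h2 : AnalyticAt ℂ (fderiv ℂ (A.th 0)) z := h1.fderiv
  exact h2.differentiableAt.clm_apply (differentiableAt_const _)

theorem Zl_diff (hA : A.IsAbVar K) (l : Fin g) {z : Fin g → ℂ} (h : A.th 0 z ≠ 0) :
    DifferentiableAt ℂ (Zl A l) z := by
  have e : Zl A l = fun z => AbData.pd l (A.th 0) z * (A.th 0 z)⁻¹ := by
    funext w
    exact div_eq_mul_inv _ _
  rw [e]
  exact (pd_diff hA l z).mul ((hA.th_diff 0 z).inv h)

/-- the logarithmic derivative of `th_0 ∘ T` -/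
theorem LD_comp (hA : A.IsAbVar K) (T : (Fin β → ℂ) →ₗ[ℂ] (Fin g → ℂ)) (a : Fin β)
    (s : Fin β → ℂ) :
    LD (fun s => A.th 0 (T s)) (Pi.single a 1) s = ∑ l, T (Pi.single a 1) l * Zl A l (T s) := by
  unfold LD Zl
  rw [(fderiv_comp T (hA.th_diff 0 (T s)) a).2, Finset.sum_div]
  exact Finset.sum_congr rfl fun l _ => mul_div_assoc _ _ _

/-- the function `∂_a log th_o` -/
noncomputable def Wf (A : AbData g N) (E : Emb g β κ Λ) (a : Fin β) (s : Fin β → ℂ) : ℂ :=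
  ∑ k, ((∑ l, (E.ik k) (Pi.single a 1) l * Zl A l (E.ik k s)) +
    ∑ l, (-(E.ik k)) (Pi.single a 1) l * Zl A l ((-(E.ik k)) s))

theorem LD_tho (hA : A.IsAbVar K) (a : Fin β) (s : Fin β → ℂ)
    (hs : (E.toTH A).th (E.toTH A).o s ≠ 0) :
    LD ((E.toTH A).th (E.toTH A).o) (Pi.single a 1) s = Wf A E a s := by
  have e : (E.toTH A).th (E.toTH A).o = fun s =>
      (∏ k, A.th 0 (E.ik k s)) * ∏ k, A.th 0 ((-(E.ik k)) s) := rfl
  have hd : ∀ T : (Fin β → ℂ) →ₗ[ℂ] (Fin g → ℂ),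
      DifferentiableAt ℂ (fun s => A.th 0 (T s)) s := fun T => by
    have h2 : DifferentiableAt ℂ (fun s => T s) s :=
      (LinearMap.toContinuousLinearMap T).differentiableAt
    exact (hA.th_diff 0 (T s)).comp s h2
  rw [e, LD_mul, LD_prod, LD_prod, Wf, Finset.sum_add_distrib]
  · congr 1
    · exact Finset.sum_congr rfl fun k _ => LD_comp hA (E.ik k) a s
    · exact Finset.sum_congr rfl fun k _ => LD_comp hA (-(E.ik k)) a s
  · exact fun k => hd _
  · exact fun k _ => (th_ne hs k).2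
  · exact fun k => hd _
  · exact fun k _ => (th_ne hs k).1
  · exact prod_diff _ fun k => hd (E.ik k)
  · exact prod_diff _ fun k => hd (-(E.ik k))
  · exact Finset.prod_ne_zero_iff.2 fun k _ => (th_ne hs k).1
  · exact Finset.prod_ne_zero_iff.2 fun k _ => (th_ne hs k).2

/-- its derivatives are polynomials in the `f_i` over `Qbar` -/
theorem Wf_deriv (hK : K ≤ Qbar) (hA : A.IsAbVar K) (hu : ∀ a k j, E.u a k j ∈ Qbar)
    (a b : Fin β) : Cl (E.toTH A) fun s => fderiv ℂ (Wf A E a) s (Pi.single b 1) := by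
  have hT1 : ∀ k (a : Fin β) j, (E.ik k) (Pi.single a 1) j ∈ Qbar := fun k a j => by
    rw [ik_single]
    exact hu a k j
  have hT2 : ∀ k (a : Fin β) j, (-(E.ik k)) (Pi.single a 1) j ∈ Qbar := fun k a j => by
    rw [LinearMap.neg_apply, ik_single, Pi.neg_apply]
    exact Qbar.neg_mem (hu a k j)
  have c1 : ∀ k, (∀ s, (E.toTH A).th (E.toTH A).o s ≠ 0 → A.th 0 (E.ik k s) ≠ 0) :=
    fun k s hs => (th_ne hs k).1
  have c2 : ∀ k, (∀ s, (E.toTH A).th (E.toTH A).o s ≠ 0 → A.th 0 ((-(E.ik k)) s) ≠ 0) :=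
    fun k s hs => (th_ne hs k).2
  have q1 : ∀ k l, (∀ s, (E.toTH A).th (E.toTH A).o s ≠ 0 →
      DifferentiableAt ℂ (fun s => Zl A l (E.ik k s)) s) ∧
      ∀ a : Fin β, Cl (E.toTH A) fun s => fderiv ℂ (fun s => Zl A l (E.ik k s)) s
        (Pi.single a 1) := fun k l =>
    comp_dcl hK (E.ik k) (hT1 k) (c1 k) (cl_fst k) (fun z hz => Zl_diff hA l hz)
      (fun j => hA.logderiv j l)
  have q2 : ∀ k l, (∀ s, (E.toTH A).th (E.toTH A).o s ≠ 0 →
      DifferentiableAt ℂ (fun s => Zl A l ((-(E.ik k)) s)) s) ∧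
      ∀ a : Fin β, Cl (E.toTH A) fun s => fderiv ℂ (fun s => Zl A l ((-(E.ik k)) s)) s
        (Pi.single a 1) := fun k l =>
    comp_dcl hK (-(E.ik k)) (hT2 k) (c2 k) (cl_snd k) (fun z hz => Zl_diff hA l hz)
      (fun j => hA.logderiv j l)
  have q3 : Cl (E.toTH A) fun s => ∑ k,
      ((∑ l, (E.ik k) (Pi.single a 1) l *
          fderiv ℂ (fun s => Zl A l (E.ik k s)) s (Pi.single b 1)) +
        ∑ l, (-(E.ik k)) (Pi.single a 1) l *
          fderiv ℂ (fun s => Zl A l ((-(E.ik k)) s)) s (Pi.single b 1)) :=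
    Cl.sum _ fun k => (Cl.sum _ fun l => (Cl.const (hT1 k a l)).mul ((q1 k l).2 b)).add
      (Cl.sum _ fun l => (Cl.const (hT2 k a l)).mul ((q2 k l).2 b))
  refine q3.congr fun s hs => ?_
  have h1 : HasFDerivAt (Wf A E a) (∑ k,
      ((∑ l, (E.ik k) (Pi.single a 1) l • fderiv ℂ (fun s => Zl A l (E.ik k s)) s) +
        ∑ l, (-(E.ik k)) (Pi.single a 1) l • fderiv ℂ (fun s => Zl A l ((-(E.ik k)) s)) s)) s := by
    refine HasFDerivAt.fun_sum fun k _ => HasFDerivAt.add ?_ ?_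
    · exact HasFDerivAt.fun_sum fun l _ => ((q1 k l).1 s hs).hasFDerivAt.const_mul _
    · exact HasFDerivAt.fun_sum fun l _ => ((q2 k l).1 s hs).hasFDerivAt.const_mul _
  rw [h1.fderiv]
  rw [_root_.sum_apply]
  refine Finset.sum_congr rfl fun k _ => ?_
  rw [_root_.add_apply, _root_.sum_apply, _root_.sum_apply]
  rfl

end LogDM

open LogDM CDVM in
/-- The second logarithmic derivatives of `th_o` are polynomials over `Qbar` in the `f_i`. -/
theorem logD_emb {g N β : ℕ} {κ Λ : Type} [Fintype κ] [DecidableEq κ] [Fintype Λ]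
    {K : IntermediateField ℚ ℂ} (A : AbData g N) (E : Emb g β κ Λ) (hK : K ≤ Qbar)
    (hA : A.IsAbVar K) (hE : E.Good A) : LogD (E.toTH A) := by
  intro i j
  obtain ⟨P, hP, hPe⟩ := (Wf_deriv (E := E) hK hA hE.u_alg j i).finish
  refine ⟨P, hP, fun z hz => ?_⟩
  rw [← hPe z hz]
  have hG : (E.toTH A).Good := specCTH K A E hA hE
  have hev : (fun w => fderiv ℂ ((E.toTH A).th (E.toTH A).o) w (Pi.single j 1) /
      (E.toTH A).th (E.toTH A).o w) =ᶠ[𝓝 z] Wf A E j := by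
    have hc : ContinuousAt ((E.toTH A).th (E.toTH A).o) z :=
      (hG.diff (E.toTH A).o).continuous.continuousAt
    filter_upwards [hc.eventually_ne hz] with w hw
    exact LD_tho hA j w hw
  rw [hev.fderiv_eq]

/-- The quasi-periodic data of an embedding. -/
theorem exists_QD {g N β : ℕ} {κ Λ : Type} [Fintype κ] [DecidableEq κ] [Fintype Λ]
    {K : IntermediateField ℚ ℂ} (A : AbData g N) (E : Emb g β κ Λ) (hK : K ≤ Qbar)
    (hA : A.IsAbVar K) (hE : E.Good A) :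
    ∃ D : QD β ((κ → Fin (N + 1)) × (κ → Fin (N + 1))) Λ,
      D.Good ∧ D.Alg ∧ D.toTH = E.toTH A ∧ LogD D.toTH := by
  have hG := specCTH K A E hA hE
  obtain ⟨hp, hq⟩ := specCDV K A E hK hA hE
  obtain ⟨⟨Y, hY, hYz⟩, hper, hf0, hz0⟩ := specCZE K A E hK hA hE
  choose p hp1 hp2 using hp
  choose q hq1 hq2 using hq
  let D : QD β ((κ → Fin (N + 1)) × (κ → Fin (N + 1))) Λ :=
    { E.toTH A with m := A.m, Y := Y, ell := E.ell A, p := p, q := q }
  have hDze : ∀ s, (E.toTH A).th (E.toTH A).o s ≠ 0 → D.ze s = E.zeF A s := hYz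
  refine ⟨D, ⟨hG, hY, ?_, hp2, ?_⟩, ⟨hf0, ?_, hp1, hq1⟩, rfl, logD_emb A E hK hA hE⟩
  · intro l z hz
    have h1 : (E.toTH A).th (E.toTH A).o (z + (E.toTH A).lat l) ≠ 0 :=
      CQDM.th_add_ne hG (E.toTH A).o l hz
    rw [hDze z hz]
    have h2 := hDze (z + (E.toTH A).lat l) h1
    exact h2.trans (hper l z hz)
  · intro j z hz
    rw [← hq2 j z hz]
    have hev : D.ze =ᶠ[𝓝 z] E.zeF A := by
      have hc : ContinuousAt ((E.toTH A).th (E.toTH A).o) z :=
        (hG.diff (E.toTH A).o).continuous.continuousAt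
      filter_upwards [hc.eventually_ne hz] with w hw
      exact hDze w hw
    rw [hev.fderiv_eq]
  · rw [hDze 0 hG.zero]
    exact hz0

end Pool.Agent.Lib.MPf11a48.SH
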