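import Pool.Agent.Lib.MP_f11a48_ag.SH.H4.SumSq
import Pool.Agent.Lib.MP_f11a48_ag.SH.H4.LogD
import Pool.Agent.Lib.MP_f11a48_ag.SH.H4.EmbB

/-!
# Project S0, part (e): from an abelian variety to the theta data on a commensurable lattice

`base`: if the rational alternating form `EE` on the lattice with basis `lat` is the sum of the forms
`w k * E_A (b k x, b k y)`, `w k > 0` rational, where the `b k` are linear maps with algebraic matrices
which map rational lattice vectors to rational lattice vectors, then there are theta data `D`, with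
everything defined over `Qbar`, on a lattice commensurable to the given one, with Riemann form `EE`.
-/

set_option autoImplicit false

open Matrix MvPolynomial Pool.Agent.Lib.MPf11a48.CM Pool.Agent.Lib.MPf11a48.GL2T
open Filter Topology
open Pool.Agent.Lib.MPf11a48.U (AbData Ix)
open Pool.Agent.Lib.MPf11a48.AS

namespace Pool.Agent.Lib.MPf11a48.SH

namespace BaseM

/-- rational coordinates are unique -/
theorem rat_unique {g : ℕ} {ι : Type} [Fintype ι] (lat : ι → (Fin g → ℂ))
    (hlat : LinearIndependent ℝ lat) (x y : ι → ℚ)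
    (h : ∑ m, ((x m : ℚ) : ℂ) • lat m = ∑ m, ((y m : ℚ) : ℂ) • lat m) : x = y := by
  have h1 : ∑ m, ((x m : ℝ) - (y m : ℝ)) • lat m = 0 := by
    simp only [sub_smul]
    rw [Finset.sum_sub_distrib, sub_eq_zero]
    have h2 : ∀ z : ι → ℚ, ∑ m, ((z m : ℚ) : ℝ) • lat m = ∑ m, ((z m : ℚ) : ℂ) • lat m := by
      intro z
      refine Finset.sum_congr rfl fun m _ => ?_
      rw [← Complex.coe_smul]
      push_cast
      rfl
    rw [h2, h2, h]
  funext m
  have h2 := Fintype.linearIndependent_iff.1 hlat _ h1 m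
  have h3 : (x m : ℝ) = (y m : ℝ) := sub_eq_zero.1 h2
  exact_mod_cast h3

/-- a nondegenerate form gives an injective family -/
theorem inj {g N n : ℕ} {κ Λ₀ : Type} [Fintype κ] [Fintype Λ₀] [DecidableEq Λ₀]
    {K : IntermediateField ℚ ℂ} (A : AbData g N) (hA : A.IsAbVar K)
    (lat : Λ₀ → (Fin n → ℂ)) (hlat : LinearIndependent ℝ lat) (hcard : Fintype.card Λ₀ = 2 * n)
    (b : κ → (Fin n → ℂ) →ₗ[ℂ] (Fin g → ℂ))
    (X : Λ₀ → κ → Ix g → ℚ) (hX : ∀ l k, b k (lat l) = ∑ m, ((X l k m : ℚ) : ℂ) • A.lat m)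
    (EE : Matrix Λ₀ Λ₀ ℚ)
    (hEE : ∀ l m, EE l m = 2 * ∑ k, ∑ j, ∑ j', X l k j * (A.E j j' : ℚ) * X m k j')
    (hdet : EE.det ≠ 0) (v : Fin n → ℂ) (hv : ∀ k, b k v = 0) : v = 0 := by
  have hcd : Fintype.card Λ₀ = Module.finrank ℝ (Fin n → ℂ) := by
    rw [Module.finrank_pi_fintype]
    simp [Complex.finrank_real_complex, mul_comm, hcard]
  let B : Module.Basis Λ₀ ℝ (Fin n → ℂ) := basisOfLinearIndependentOfCardEqFinrank' _ hlat hcd
  have hB : ∀ l, B l = lat l := fun l => by
    show basisOfLinearIndependentOfCardEqFinrank' _ hlat hcd l = _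
    rw [coe_basisOfLinearIndependentOfCardEqFinrank']
  have hs : v = ∑ l, B.repr v l • lat l := by
    conv_lhs => rw [← B.sum_repr v]
    exact Finset.sum_congr rfl fun l _ => by rw [hB]
  have h1 : ∀ k j, ∑ l, B.repr v l * (X l k j : ℝ) = 0 := by
    intro k
    have h2 := hv k
    rw [hs, map_sum] at h2
    have h3 : ∑ j, (∑ l, B.repr v l * (X l k j : ℝ)) • A.lat j = 0 := by
      rw [← h2]
      simp only [Finset.sum_smul]
      rw [Finset.sum_comm]
      refine Finset.sum_congr rfl fun l _ => ?_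
      rw [← Complex.coe_smul, map_smul, hX, Finset.smul_sum]
      refine Finset.sum_congr rfl fun j _ => ?_
      rw [smul_smul, ← Complex.coe_smul]
      push_cast
      rfl
    exact Fintype.linearIndependent_iff.1 hA.lat_indep _ h3
  have h2 : (fun l => B.repr v l) ᵥ* (EE.map fun x => (x : ℝ)) = 0 := by
    funext m
    simp only [Matrix.vecMul, dotProduct, Matrix.map_apply, Pi.zero_apply]
    have h3 : ∀ l, B.repr v l * ((EE l m : ℚ) : ℝ) =
        2 * ∑ k, ∑ j, ∑ j', (B.repr v l * (X l k j : ℝ)) * ((A.E j j' : ℝ) * (X m k j' : ℝ)) := by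
      intro l
      rw [hEE]
      push_cast
      rw [← mul_assoc, mul_comm (B.repr v l) 2, mul_assoc]
      congr 1
      simp only [Finset.mul_sum]
      refine Finset.sum_congr rfl fun k _ => Finset.sum_congr rfl fun j _ =>
        Finset.sum_congr rfl fun j' _ => ?_
      ring
    simp only [h3]
    rw [← Finset.mul_sum, Finset.sum_comm]
    rw [Finset.sum_eq_zero, mul_zero]
    intro k _
    rw [Finset.sum_comm]
    refine Finset.sum_eq_zero fun j _ => ?_
    rw [Finset.sum_comm]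
    refine Finset.sum_eq_zero fun j' _ => ?_
    rw [← Finset.sum_mul, h1, zero_mul]
  have h3 : (fun l => B.repr v l) = 0 := by
    refine Matrix.eq_zero_of_vecMul_eq_zero ?_ h2
    intro h0
    apply hdet
    have h4 : (EE.map fun x => (x : ℝ)).det = ((EE.det : ℚ) : ℝ) := by
      have := (RingHom.map_det (Rat.castHom ℝ) EE)
      exact this.symm
    rw [h4] at h0
    exact_mod_cast h0
  rw [hs]
  refine Finset.sum_eq_zero fun l _ => ?_
  have h4 : B.repr v l = 0 := congrFun h3 l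
  rw [h4, zero_smul]

end BaseM

open BaseM in
/-- **Base data.** -/
theorem base {g N n : ℕ} {κ Λ₀ : Type} [Fintype κ] [DecidableEq κ] [Fintype Λ₀] [DecidableEq Λ₀]
    {K : IntermediateField ℚ ℂ} (hK : K ≤ Qbar) (A : AbData g N) (hA : A.IsAbVar K)
    (lat : Λ₀ → (Fin n → ℂ)) (hlat : LinearIndependent ℝ lat) (hcard : Fintype.card Λ₀ = 2 * n)
    (b : κ → (Fin n → ℂ) →ₗ[ℂ] (Fin g → ℂ)) (hb : ∀ k a j, b k (Pi.single a 1) j ∈ Qbar)
    (X : Λ₀ → κ → Ix g → ℚ) (hX : ∀ l k, b k (lat l) = ∑ m, ((X l k m : ℚ) : ℂ) • A.lat m)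
    (w : κ → ℚ) (hw : ∀ k, 0 < w k) (EE : Matrix Λ₀ Λ₀ ℚ)
    (hEE : ∀ l m, EE l m = ∑ k, w k * ∑ j, ∑ j', X l k j * (A.E j j' : ℚ) * X m k j')
    (hdet : EE.det ≠ 0) :
    ∃ (I Λ : Type) (_ : Fintype I) (_ : Fintype Λ) (D : QD n I Λ), D.Good ∧ D.Alg ∧
      LogD D.toTH ∧ ∃ t : Λ₀ → Λ → ℚ, (∀ m, vq D.toTH (t m) = lat m) ∧
        (∀ l, ∃ x : Λ₀ → ℚ, D.lat l = ∑ m, ((x m : ℚ) : ℂ) • lat m) ∧
        ∀ m m', pr D.toTH (t m) (t m') = Real.pi * Complex.I * (EE m m' : ℂ) := by
  classical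
  -- weights
  choose r hr using fun k => SumSqM.rat_sq (w k / 2) (by have := hw k; positivity)
  let b' : κ × Fin 4 → (Fin n → ℂ) →ₗ[ℂ] (Fin g → ℂ) := fun p => ((r p.1 p.2 : ℚ) : ℂ) • b p.1
  let X' : Λ₀ → κ × Fin 4 → Ix g → ℚ := fun l p m => r p.1 p.2 * X l p.1 m
  have hb' : ∀ k a j, b' k (Pi.single a 1) j ∈ Qbar := by
    intro k a j
    show ((r k.1 k.2 : ℚ) : ℂ) * b k.1 (Pi.single a 1) j ∈ Qbar
    exact Qbar.mul_mem (SubfieldClass.ratCast_mem Qbar _) (hb k.1 a j)
  have hX' : ∀ l k, b' k (lat l) = ∑ m, ((X' l k m : ℚ) : ℂ) • A.lat m := by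
    intro l k
    show ((r k.1 k.2 : ℚ) : ℂ) • b k.1 (lat l) = _
    rw [hX, Finset.smul_sum]
    refine Finset.sum_congr rfl fun m _ => ?_
    rw [smul_smul]
    congr 1
    show _ = ((r k.1 k.2 * X l k.1 m : ℚ) : ℂ)
    push_cast
    rfl
  have hEE' : ∀ l m, EE l m = 2 * ∑ k, ∑ j, ∑ j', X' l k j * (A.E j j' : ℚ) * X' m k j' := by
    intro l m
    rw [hEE, Fintype.sum_prod_type, Finset.mul_sum]
    refine Finset.sum_congr rfl fun k _ => ?_
    have h1 : w k = 2 * ∑ l, r k l * r k l := by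
      rw [← hr k]
      ring
    rw [h1, mul_assoc, Finset.sum_mul]
    congr 1
    refine Finset.sum_congr rfl fun i _ => ?_
    rw [Finset.mul_sum]
    refine Finset.sum_congr rfl fun j _ => ?_
    rw [Finset.mul_sum]
    refine Finset.sum_congr rfl fun j' _ => ?_
    show _ = r k i * X l k j * (A.E j j' : ℚ) * (r k i * X m k j')
    ring
  have hinj := inj A hA lat hlat hcard b' X' hX' EE hEE' hdet
  obtain ⟨Em, hEm, hio, -, hlt, hlt'⟩ := exists_emb A hA lat hlat hcard b' hb' X' hX' hinj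
  obtain ⟨D, hD, hDA, hDE, hDL⟩ := exists_QD A Em hK hA hEm
  choose t ht using hlt'
  have hlatD : D.toTH.lat = Em.lat := by rw [hDE]; rfl
  have hvq : ∀ m, vq D.toTH (t m) = lat m := by
    intro m
    unfold vq
    rw [hlatD]
    exact (ht m).symm
  refine ⟨_, _, inferInstance, inferInstance, D, hD, hDA, hDL, t, hvq, fun l => ?_, ?_⟩
  · obtain ⟨x, hx⟩ := hlt l
    refine ⟨x, ?_⟩
    rw [← hx, ← hlatD]
  · -- the pairing
    have hc : ∀ m k j, ∑ l, t m l * (Em.X l k j : ℚ) = X' m k j := by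
      intro m k
      have h1 : b' k (lat m) = ∑ j, ((∑ l, t m l * (Em.X l k j : ℚ) : ℚ) : ℂ) • A.lat j := by
        rw [ht m, map_sum]
        have h2 : ∀ l, b' k (((t m l : ℚ) : ℂ) • Em.lat l) =
            ∑ j, (((t m l : ℚ) : ℂ) * (Em.X l k j : ℂ)) • A.lat j := by
          intro l
          rw [map_smul, ← hio, hEm.lat_eq, Finset.smul_sum]
          exact Finset.sum_congr rfl fun j _ => smul_smul _ _ _
        simp only [h2]
        rw [Finset.sum_comm]
        refine Finset.sum_congr rfl fun j _ => ?_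
        rw [← Finset.sum_smul]
        congr 1
        push_cast
        rfl
      have h2 := rat_unique A.lat hA.lat_indep _ _ (h1.symm.trans (hX' m k))
      exact fun j => congrFun h2 j
    have haq : ∀ m m', aq D.toTH (t m) (lat m') =
        2 * ∑ k, ∑ j, ∑ j', (X' m k j : ℂ) * (X' m' k j' : ℂ) * A.a j (A.lat j') := by
      intro m m'
      unfold aq
      have haD : D.toTH.a = (Em.toTH A).a := by rw [hDE]
      rw [haD, LinearMap.sum_apply]
      have h1 : ∀ l, (((t m l : ℚ) : ℂ) • (Em.toTH A).a l) (lat m') =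
          ∑ k, ∑ j, ((t m l : ℚ) : ℂ) * (2 * (Em.X l k j : ℂ)) * A.a j (b' k (lat m')) := by
        intro l
        rw [LinearMap.smul_apply]
        show ((t m l : ℚ) : ℂ) • (∑ k, ∑ j, (2 * (Em.X l k j : ℂ)) • (A.a j ∘ₗ Em.ik k)) (lat m') = _
        rw [LinearMap.sum_apply, smul_eq_mul, Finset.mul_sum]
        refine Finset.sum_congr rfl fun k _ => ?_
        rw [LinearMap.sum_apply, Finset.mul_sum]
        refine Finset.sum_congr rfl fun j _ => ?_
        rw [LinearMap.smul_apply, LinearMap.comp_apply, smul_eq_mul, ← mul_assoc]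
        have h2 : Em.ik k (lat m') = b' k (lat m') := hio _ _
        rw [h2]
      simp only [h1]
      rw [Finset.sum_comm, Finset.mul_sum]
      refine Finset.sum_congr rfl fun k _ => ?_
      rw [Finset.sum_comm, Finset.mul_sum]
      refine Finset.sum_congr rfl fun j _ => ?_
      have h3 : ∑ l, ((t m l : ℚ) : ℂ) * (2 * (Em.X l k j : ℂ)) * A.a j (b' k (lat m')) =
          2 * (X' m k j : ℂ) * A.a j (b' k (lat m')) := by
        rw [← hc m k j, ← Finset.sum_mul]
        congr 1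
        push_cast
        rw [Finset.mul_sum]
        exact Finset.sum_congr rfl fun l _ => by ring
      rw [h3, hX' m' k, map_sum, Finset.mul_sum, Finset.mul_sum]
      refine Finset.sum_congr rfl fun j' _ => ?_
      rw [map_smul, smul_eq_mul]
      ring
    intro m m'
    unfold pr
    rw [hvq, hvq, haq, haq]
    have h1 : ∑ k, ∑ j, ∑ j', (X' m' k j : ℂ) * (X' m k j' : ℂ) * A.a j (A.lat j') =
        ∑ k, ∑ j, ∑ j', (X' m k j : ℂ) * (X' m' k j' : ℂ) * A.a j' (A.lat j) := by
      refine Finset.sum_congr rfl fun k _ => ?_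
      rw [Finset.sum_comm]
      refine Finset.sum_congr rfl fun j _ => Finset.sum_congr rfl fun j' _ => ?_
      ring
    rw [h1, ← mul_sub, ← Finset.sum_sub_distrib]
    simp only [← Finset.sum_sub_distrib]
    have h2 : ∀ k j j', (X' m k j : ℂ) * (X' m' k j' : ℂ) * A.a j (A.lat j') -
        (X' m k j : ℂ) * (X' m' k j' : ℂ) * A.a j' (A.lat j) =
        2 * Real.pi * Complex.I * ((X' m k j : ℂ) * (A.E j j' : ℂ) * (X' m' k j' : ℂ)) := by
      intro k j j'
      rw [← mul_sub, hA.riemann]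
      ring
    simp only [h2, ← Finset.mul_sum]
    rw [hEE' m m']
    push_cast
    ring

end Pool.Agent.Lib.MPf11a48.SH
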