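import Mathlib

/-!
# Project S0, part (e): totally positive elements are sums of squares

`F` is a totally real number field, given by an injective family `φ` of `[F : ℚ]` real embeddings. Every
element which is positive in all embeddings is a sum of squares of elements of `F`.
-/

set_option autoImplicit false

open Filter Topology

namespace Pool.Agent.Lib.MPf11a48.SH

namespace SumSqM

variable {F ι : Type} [Field F] [Algebra ℚ F] [Fintype ι]

/-- the map `F → ℝ^ι` -/
def emb (φ : ι → F →+* ℝ) (y : F) : ι → ℝ := fun i => φ i y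

/-- The image of a `ℚ`-basis of `F` is a basis of `ℝ^ι`. -/
theorem basis_indep [FiniteDimensional ℚ F] (φ : ι → F →+* ℝ) (hinj : Function.Injective φ)
    (hcard : Fintype.card ι = Module.finrank ℚ F) :
    ∃ b : ι → F, LinearIndependent ℝ fun j => emb φ (b j) := by
  classical
  let b0 := Module.finBasis ℚ F
  let e : ι ≃ Fin (Module.finrank ℚ F) := Fintype.equivFinOfCardEq hcard
  let b : Module.Basis ι ℚ F := b0.reindex e.symm
  refine ⟨b, ?_⟩
  let M : Matrix ι ι ℝ := Matrix.of fun j i => φ i (b j)
  have hM : IsUnit M := by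
    rw [← Matrix.linearIndependent_cols_iff_isUnit]
    -- independence of characters
    have h1 : LinearIndependent ℝ fun i : ι => (φ i : F → ℝ) := by
      have h2 := linearIndependent_monoidHom F ℝ
      have h3 : Function.Injective fun i : ι => ((φ i : F →+* ℝ) : F →* ℝ) := by
        intro i j hij
        apply hinj
        ext y
        exact DFunLike.congr_fun hij y
      exact h2.comp _ h3
    rw [Fintype.linearIndependent_iff] at h1 ⊢
    intro t ht
    apply h1
    funext y
    have h2 : ∀ j, ∑ i, t i * φ i (b j) = 0 := by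
      intro j
      have := congrFun ht j
      simpa [M, Finset.sum_apply, Matrix.col, smul_eq_mul] using this
    have h3 : ∀ i, φ i y = ∑ j, (b.repr y j : ℝ) * φ i (b j) := by
      intro i
      conv_lhs => rw [← b.sum_repr y]
      rw [map_sum]
      refine Finset.sum_congr rfl fun j _ => ?_
      rw [Algebra.smul_def, map_mul]
      congr 1
      simp
    simp only [Finset.sum_apply, Pi.smul_apply, smul_eq_mul, Pi.zero_apply]
    have h4 : ∑ i, t i * φ i y = ∑ j, (b.repr y j : ℝ) * ∑ i, t i * φ i (b j) := by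
      simp only [h3, Finset.mul_sum]
      rw [Finset.sum_comm]
      refine Finset.sum_congr rfl fun j _ => Finset.sum_congr rfl fun i _ => ?_
      ring
    rw [h4]
    simp [h2]
  have h5 := Matrix.linearIndependent_rows_iff_isUnit.2 hM
  exact h5

/-- `F` is dense in `ℝ^ι`. -/
theorem dense [FiniteDimensional ℚ F] (φ : ι → F →+* ℝ) (hinj : Function.Injective φ)
    (hcard : Fintype.card ι = Module.finrank ℚ F) : DenseRange (emb φ) := by
  classical
  obtain ⟨b, hb⟩ := basis_indep φ hinj hcard
  let B : Module.Basis ι ℝ (ι → ℝ) := basisOfLinearIndependentOfCardEqFinrank' _ hb (by simp)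
  have hB : ∀ j, B j = emb φ (b j) := fun j => by
    show basisOfLinearIndependentOfCardEqFinrank' _ hb _ j = _
    rw [coe_basisOfLinearIndependentOfCardEqFinrank']
  -- the map `ℝ^ι → ℝ^ι`, `t ↦ ∑ t_j B_j` is continuous and surjective
  let L : (ι → ℝ) → (ι → ℝ) := fun t => ∑ j, t j • B j
  have hL : Continuous L := by
    refine continuous_finsetSum _ fun j _ => ?_
    exact (continuous_apply j).smul continuous_const
  have hLs : Function.Surjective L := fun y => ⟨fun j => B.repr y j, B.sum_repr y⟩
  have hd : DenseRange fun q : ι → ℚ => fun j => (q j : ℝ) := by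
    have := DenseRange.piMap (fun _ : ι => Rat.denseRange_cast (𝕜 := ℝ))
    exact this
  have h1 : DenseRange (L ∘ fun q : ι → ℚ => fun j => (q j : ℝ)) :=
    hLs.denseRange.comp hd hL
  refine h1.mono ?_
  rintro _ ⟨q, rfl⟩
  refine ⟨∑ j, algebraMap ℚ F (q j) * b j, ?_⟩
  funext i
  simp [emb, L, hB, Finset.sum_apply]


/-- the matrix of the squares -/
def S (y : ι → ι → ℝ) : Matrix ι ι ℝ := Matrix.of fun i k => y k i ^ 2

theorem S_cont [DecidableEq ι] : Continuous (S : (ι → ι → ℝ) → Matrix ι ι ℝ) := by
  unfold S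
  refine continuous_matrix fun i k => ?_
  exact ((continuous_apply i).comp (continuous_apply k)).pow 2

/-- the open set -/
def U [DecidableEq ι] (α : ι → ℝ) : Set (ι → ι → ℝ) :=
  {y | (S y).det ≠ 0 ∧ ∀ k, 0 < (S y).det * (S y).cramer α k}

theorem U_open [DecidableEq ι] (α : ι → ℝ) : IsOpen (U α) := by
  have h1 : Continuous fun y : ι → ι → ℝ => (S y).det := S_cont.matrix_det
  have h2 : Continuous fun y : ι → ι → ℝ => (S y).cramer α :=
    S_cont.matrix_cramer continuous_const
  have h3 : U α = {y | (S y).det ≠ 0} ∩ ⋂ k, {y | 0 < (S y).det * (S y).cramer α k} := by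
    ext y
    simp [U]
  rw [h3]
  refine (isOpen_ne_fun h1 continuous_const).inter (isOpen_iInter_of_finite fun k => ?_)
  exact isOpen_lt continuous_const (h1.mul ((continuous_apply k).comp h2))

theorem U_nonempty [DecidableEq ι] [Nonempty ι] (α : ι → ℝ) (hα : ∀ i, 0 < α i) :
    (U α).Nonempty := by
  obtain ⟨ε, hε, hεα⟩ : ∃ ε : ℝ, 0 < ε ∧ ∀ i, ε ≤ α i := by
    obtain ⟨i0, hi0⟩ := Finite.exists_min α
    exact ⟨α i0, hα i0, hi0⟩
  set n : ℝ := ((Fintype.card ι : ℕ) : ℝ) with hn
  have hn1 : 1 ≤ n := by
    rw [hn]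
    exact_mod_cast Fintype.card_pos (α := ι)
  have hn0 : 0 < n := by linarith
  let v : ι → ι → ℝ := fun k i => α i + ε * ((if i = k then 1 else 0) - 1 / n)
  have hv : ∀ k i, 0 ≤ v k i := by
    intro k i
    have h1 : 1 / n ≤ 1 := by rw [div_le_one hn0]; exact hn1
    have h2 : ε * (1 / n) ≤ ε := by nlinarith
    have h3 := hεα i
    show 0 ≤ α i + ε * ((if i = k then 1 else 0) - 1 / n)
    split_ifs
    · nlinarith
    · nlinarith
  let y : ι → ι → ℝ := fun k i => Real.sqrt (v k i)
  have hS : S y = Matrix.of fun i k => v k i := by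
    ext i k
    simp only [S, Matrix.of_apply, y]
    exact Real.sq_sqrt (hv k i)
  have hmul : ∀ t : ι → ℝ, ∀ i, (S y).mulVec t i =
      α i * ∑ k, t k + ε * (t i - (∑ k, t k) / n) := by
    intro t i
    rw [hS]
    simp only [Matrix.mulVec, dotProduct, Matrix.of_apply, v]
    have h1 : ∀ k, (α i + ε * ((if i = k then 1 else 0) - 1 / n)) * t k =
        α i * t k + ε * ((if i = k then t k else 0) - t k / n) := by
      intro k
      split_ifs <;> ring
    simp only [h1]
    rw [Finset.sum_add_distrib, ← Finset.mul_sum, ← Finset.mul_sum, Finset.sum_sub_distrib,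
      ← Finset.sum_div]
    simp
  have hdet : (S y).det ≠ 0 := by
    intro h0
    obtain ⟨t, ht0, ht⟩ := Matrix.exists_mulVec_eq_zero_iff.2 h0
    have h1 : ∀ i, α i * ∑ k, t k + ε * (t i - (∑ k, t k) / n) = 0 := by
      intro i
      rw [← hmul, ht]
      rfl
    have h2 : (∑ i, α i) * ∑ k, t k = 0 := by
      have h3 : ∑ i, (α i * ∑ k, t k + ε * (t i - (∑ k, t k) / n)) = 0 :=
        Finset.sum_eq_zero fun i _ => h1 i
      rw [Finset.sum_add_distrib, ← Finset.sum_mul, ← Finset.mul_sum, Finset.sum_sub_distrib,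
        Finset.sum_const, Finset.card_univ, nsmul_eq_mul, ← hn] at h3
      have h4 : n * ((∑ k, t k) / n) = ∑ k, t k := by field_simp
      rw [h4, sub_self, mul_zero, add_zero] at h3
      exact h3
    have h3 : 0 < ∑ i, α i := Finset.sum_pos (fun i _ => hα i) Finset.univ_nonempty
    have h4 : ∑ k, t k = 0 := by
      rcases mul_eq_zero.1 h2 with h | h
      · exact absurd h h3.ne'
      · exact h
    apply ht0
    funext i
    have h5 := h1 i
    rw [h4] at h5
    simp only [mul_zero, zero_div, sub_zero, zero_add] at h5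
    rcases mul_eq_zero.1 h5 with h | h
    · exact absurd h hε.ne'
    · exact h
  have hc : (S y).mulVec (fun _ => 1 / n) = α := by
    funext i
    rw [hmul]
    simp only [Finset.sum_const, Finset.card_univ, nsmul_eq_mul, ← hn]
    field_simp
    ring
  refine ⟨y, hdet, fun k => ?_⟩
  have h1 : (S y).det • (fun _ : ι => (1 / n : ℝ)) = (S y).cramer α := by
    rw [← hc, Matrix.cramer_eq_adjugate_mulVec, Matrix.mulVec_mulVec, Matrix.adjugate_mul,
      Matrix.smul_mulVec, Matrix.one_mulVec]
  rw [← h1]
  simp only [Pi.smul_apply, smul_eq_mul]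
  have h2 : 0 < (S y).det * (S y).det := mul_self_pos.2 hdet
  have h3 : 0 < 1 / n := by positivity
  nlinarith [mul_pos h2 h3]

/-- a positive rational number is a sum of four squares -/
theorem rat_sq (q : ℚ) (hq : 0 < q) : ∃ r : Fin 4 → ℚ, q = ∑ l, r l * r l := by
  obtain ⟨a, b, c, d, h⟩ := Nat.sum_four_squares (q.num.toNat * q.den)
  have hd : (q.den : ℚ) ≠ 0 := by exact_mod_cast q.den_ne_zero
  have hnum : ((q.num.toNat : ℕ) : ℚ) = (q.num : ℚ) := by
    have h1 : ((q.num.toNat : ℕ) : ℤ) = q.num := Int.toNat_of_nonneg (Rat.num_pos.2 hq).le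
    exact_mod_cast h1
  refine ⟨![a / q.den, b / q.den, c / q.den, d / q.den], ?_⟩
  have h2 : (a : ℚ) ^ 2 + b ^ 2 + c ^ 2 + d ^ 2 = q.num * q.den := by
    rw [← hnum]
    exact_mod_cast h
  have h3 : q = (q.num * q.den : ℚ) / (q.den * q.den) := by
    conv_lhs => rw [← Rat.num_div_den q]
    field_simp
  rw [Fin.sum_univ_four]
  simp only [Matrix.cons_val_zero, Matrix.cons_val_one, Matrix.cons_val]
  calc q = (q.num * q.den : ℚ) / (q.den * q.den) := h3
    _ = _ := by
        rw [← h2]
        field_simp

end SumSqM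

open SumSqM in
/-- Totally positive elements of totally real fields are sums of squares. -/
theorem sum_sq {F ι : Type} [Field F] [Algebra ℚ F] [Fintype ι] [FiniteDimensional ℚ F]
    (φ : ι → F →+* ℝ) (hinj : Function.Injective φ)
    (hcard : Fintype.card ι = Module.finrank ℚ F) (a : F) (ha : ∀ i, 0 < φ i a) :
    ∃ (n : ℕ) (y : Fin n → F), a = ∑ k, y k * y k := by
  classical
  have hne : Nonempty ι := by
    rw [← Fintype.card_pos_iff, hcard]
    exact Module.finrank_pos
  -- a point of the open set
  have hD : DenseRange fun y : ι → F => fun k => emb φ (y k) :=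
    DenseRange.piMap fun _ : ι => dense φ hinj hcard
  obtain ⟨y, hdet, hpos⟩ := hD.exists_mem_open (U_open (emb φ a)) (U_nonempty (emb φ a) ha)
  set M : Matrix ι ι ℝ := S fun k => emb φ (y k) with hM
  have hMe : ∀ i k, M i k = φ i (y k * y k) := fun i k => by
    rw [map_mul]
    show (emb φ (y k) i) ^ 2 = φ i (y k) * φ i (y k)
    rw [sq]
    rfl
  let c : ι → ℝ := fun k => M.cramer (emb φ a) k / M.det
  have hc0 : ∀ k, 0 < c k := by
    intro k
    have h1 := hpos k
    have h2 : 0 < M.det * M.det := mul_self_pos.2 hdet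
    have h3 : c k = M.det * M.cramer (emb φ a) k / (M.det * M.det) := by
      show M.cramer (emb φ a) k / M.det = _
      field_simp
    rw [h3]
    exact div_pos h1 h2
  have hMc : M.mulVec c = emb φ a := by
    have h1 := Matrix.mulVec_cramer M (emb φ a)
    have h2 : c = (M.det)⁻¹ • M.cramer (emb φ a) := by
      funext k
      simp only [c, Pi.smul_apply, smul_eq_mul]
      field_simp
    rw [h2, Matrix.mulVec_smul, h1, smul_smul, inv_mul_cancel₀ hdet, one_smul]
  -- the squares are a basis over `ℚ`
  have hMi : LinearIndependent ℝ fun k => emb φ (y k * y k) := by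
    have h1 : IsUnit M := (Matrix.isUnit_iff_isUnit_det M).2 (isUnit_iff_ne_zero.2 hdet)
    have h2 := Matrix.linearIndependent_cols_iff_isUnit.2 h1
    have h3 : (fun k => emb φ (y k * y k)) = M.col := by
      funext k i
      exact (hMe i k).symm
    rw [h3]
    exact h2
  have hQi : LinearIndependent ℚ fun k => y k * y k := by
    rw [Fintype.linearIndependent_iff] at hMi ⊢
    intro t ht k
    have h1 := hMi (fun k => (t k : ℝ)) (by
      funext i
      have h2 := congrArg (φ i) ht
      rw [map_sum, map_zero] at h2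
      simp only [Finset.sum_apply, Pi.smul_apply, smul_eq_mul, Pi.zero_apply, emb]
      rw [← h2]
      refine Finset.sum_congr rfl fun k _ => ?_
      rw [Algebra.smul_def, map_mul]
      congr 1
      simp) k
    exact_mod_cast h1
  let B : Module.Basis ι ℚ F := basisOfLinearIndependentOfCardEqFinrank hQi hcard
  have hB : ∀ k, B k = y k * y k := fun k => by
    show basisOfLinearIndependentOfCardEqFinrank hQi hcard k = _
    rw [coe_basisOfLinearIndependentOfCardEqFinrank]
  have haq : a = ∑ k, algebraMap ℚ F (B.repr a k) * (y k * y k) := by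
    conv_lhs => rw [← B.sum_repr a]
    refine Finset.sum_congr rfl fun k _ => ?_
    rw [Algebra.smul_def, hB]
  have hq : ∀ k, c k = (B.repr a k : ℝ) := by
    rw [Fintype.linearIndependent_iff] at hMi
    intro k
    have h1 := hMi (fun k => c k - (B.repr a k : ℝ)) (by
      funext i
      have h2 := congrFun hMc i
      have h3 := congrArg (φ i) haq
      rw [map_sum] at h3
      simp only [Matrix.mulVec, dotProduct, hMe] at h2
      simp only [Finset.sum_apply, Pi.smul_apply, smul_eq_mul, Pi.zero_apply, emb, sub_mul]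
      rw [Finset.sum_sub_distrib, sub_eq_zero]
      have h4 : ∑ k, c k * φ i (y k * y k) = φ i a := by
        rw [← show emb φ a i = φ i a from rfl, ← h2]
        exact Finset.sum_congr rfl fun k _ => mul_comm _ _
      rw [h4, h3]
      refine Finset.sum_congr rfl fun k _ => ?_
      rw [map_mul]
      congr 1
      simp) k
    exact sub_eq_zero.1 h1
  have hq0 : ∀ k, 0 < B.repr a k := fun k => by
    have h1 := hc0 k
    rw [hq k] at h1
    exact_mod_cast h1
  choose r hr using fun k => rat_sq (B.repr a k) (hq0 k)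
  let e : ι × Fin 4 ≃ Fin (Fintype.card (ι × Fin 4)) := Fintype.equivFin _
  refine ⟨_, fun m => algebraMap ℚ F (r (e.symm m).1 (e.symm m).2) * y (e.symm m).1, ?_⟩
  rw [Equiv.sum_comp e.symm (fun p : ι × Fin 4 => (algebraMap ℚ F (r p.1 p.2) * y p.1) *
    (algebraMap ℚ F (r p.1 p.2) * y p.1)), Fintype.sum_prod_type]
  conv_lhs => rw [haq]
  refine Finset.sum_congr rfl fun k _ => ?_
  conv_lhs => rw [hr k]
  rw [map_sum, Finset.sum_mul]
  refine Finset.sum_congr rfl fun l _ => ?_
  rw [map_mul]
  ring

end Pool.Agent.Lib.MPf11a48.SH
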